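import Pool.Agent.Helper95.Lin.Basics
import Pool.Agent.Helper95.Lin.GoalsD
import Pool.Agent.Helper95.Lin.GoalsG
import Pool.Agent.Helper95.Lin.GoalsH
import Pool.Agent.Helper95.Lin.GoalsI
import Pool.Agent.Helper45.LinK.GoalsK

/-! # Packet APPKK -/

open Complex Metric Set Filter Topology MeasureTheory
open scoped ContDiff ComplexConjugate ComplexOrder

namespace Pool.Agent.Helper87.LinK.Appk

open Pool.Agent.Helper95.Lin Pool.Agent.Helper16.Abund Pool.Agent.Helper45.LinK

/-- The projection as a continuous linear map. -/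
noncomputable def baseL (b k : ℕ) : Cn (b + k) →L[ℂ] Cn b :=
  ContinuousLinearMap.pi fun i => ContinuousLinearMap.proj (Fin.castAdd k i)

theorem baseL_apply {b k : ℕ} (v : Cn (b + k)) : baseL b k v = base v := rfl

theorem base_append {b k : ℕ} (z : Cn b) (w : Fin k → ℂ) :
    base (Fin.append z w : Cn (b + k)) = z := by
  funext i
  exact Fin.append_left z w i

theorem base_add_smul {b k : ℕ} (x e : Cn (b + k)) (ζ : ℂ) :
    base (x + ζ • e) = base x + ζ • base e := by
  funext i
  rfl

theorem baseL_open (b k : ℕ) : IsOpenMap (baseL b k) := by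
  apply ContinuousLinearMap.isOpenMap
  intro z
  exact ⟨Fin.append z 0, base_append z 0⟩

theorem appkk (hKE : S_KE) (hKM : S_KMAIN) (hC : S_CARC) (hP : S_CARP) (hEq : S_CAREQ)
    (hCD : S_CARD) (hDep : S_DEPF) : S_APPKK := by
  intro b k D Γ _ g a β H hL hK m V A hA
  have hE := hKE hK
  have hV : ∀ i, DifferentiableOn ℂ (V i) D := fun i => (hA.inL i).1
  have hV0 : ∀ i, ∀ z, z ∉ D → V i z = 0 := fun i => (hA.inL i).2.1
  have hDo : IsOpen D := hL.base.dom.isOpen
  obtain ⟨_, hC2, hC3⟩ := hC D hDo V hV
  have hdet : ∀ γ, (A γ).det ≠ 0 := by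
    intro γ h
    have h1 : (A γ).det * (A γ⁻¹).det = 1 := by
      rw [← Matrix.det_mul, ← map_mul, mul_inv_cancel, map_one, Matrix.det_one]
    rw [h, zero_mul] at h1
    exact zero_ne_one h1
  obtain ⟨h1, h2⟩ := hKM hE (fun v => carF D V (base v)) (fun γ => -Real.log |(A γ).det|) (by
      exact hC3.comp (baseL b k).continuous.continuousOn (fun v hv => hv))
    (fun v hv => hC2 _ hv) (by
      intro s hs _ x hx e hd
      have h3 := hP D hDo V hV s hs (base x) hx (base e) (fun ζ hζ => by
        rw [← base_add_smul]; exact hd ζ hζ)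
      simp only [base_add_smul]
      exact h3) (by
      intro U hU hUo hUn
      have h3 : IsOpen (baseL b k '' U) := baseL_open b k U hUo
      obtain ⟨z, ⟨x, hx, hxz⟩, h4⟩ := hCD D hL.base.dom V hV hV0 hA.indep
        (fun z hz lam h => (hDep hL.base hA z hz lam h).2) (baseL b k '' U) (by
          rintro _ ⟨x, hx, rfl⟩
          exact hU hx) h3 (hUn.image _)
      refine ⟨x, hx, ?_⟩
      rw [← hxz] at h4
      exact h4) (by
      intro γ x hx
      have h3 := hEq hL.base.act V A hV hA.ad γ (base x) hx
      have h4 : base (TtK g a β γ x) = g γ (base x) := base_append _ _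
      rw [h4, ← h3, Real.exp_neg, Real.exp_log (abs_pos.mpr (hdet γ)), ← mul_assoc,
        inv_mul_cancel₀ (abs_pos.mpr (hdet γ)).ne', one_mul])
  constructor
  · intro z hz
    have h3 := h1 (Fin.append z 0 : Cn (b + k)) (by
      change base _ ∈ D
      rw [base_append]; exact hz)
    rw [base_append] at h3
    exact h3
  · intro x hx e hd
    have h3 := h2 (Fin.append x 0 : Cn (b + k)) (by
      change base _ ∈ D
      rw [base_append]; exact hx) (Fin.append e 0 : Cn (b + k)) (by
      intro ζ hζ
      change base _ ∈ D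
      rw [base_add_smul, base_append, base_append]
      exact hd ζ hζ)
    simp only [base_add_smul, base_append] at h3
    exact h3

end Pool.Agent.Helper87.LinK.Appk
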