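import Pool.Agent.Helper45.LinK.GoalsM

/-! # Packet DKLOCK: properness in the local form -/

open Complex Metric Set Filter Topology MeasureTheory
open scoped ContDiff ComplexConjugate ComplexOrder Manifold

namespace Pool.Agent.Helper87.LinK.Dkloc

open Pool.Agent.Helper16.Abund Pool.Agent.Helper92.Orb Pool.Agent.Helper95.Lin
  Pool.Agent.Helper45.LinK

universe u

theorem dklock : S_DKLOCK.{u} := by
  intro b k D hD Γ _ _ h x
  have : LocallyCompactSpace (TorTube hD k) := (tube D hD k).isOpen.locallyCompactSpace
  obtain ⟨K, hK, hx⟩ := exists_compact_mem_nhds x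
  exact ⟨K, hx, h K hK⟩

end Pool.Agent.Helper87.LinK.Dkloc
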