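import Pool.Agent.Helper45.LinK.GoalsK
import Pool.Agent.Helper92.Lin.StepA

/-!
# The scalar cocycles of words in commutators

The file `Pool.Agent.Helper92.Lin.StepA` with fewer hypotheses.
-/

open Complex Metric Set Filter Topology MeasureTheory
open scoped ContDiff ComplexConjugate ComplexOrder

namespace Pool.Agent.Helper87.LinK

open Pool.Agent.Helper95.Lin Pool.Agent.Helper92.Lin Pool.Agent.Helper45.LinK

/-- A holomorphic scalar cocycle of a holomorphic action. -/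
structure SAct {b : ℕ} (D : Set (Cn b)) {Γ : Type} [Group Γ] (g : Γ → Cn b → Cn b)
    (a : Γ → Cn b → ℂ) : Prop where
  act : GAct D g
  a_holo : ∀ γ, DifferentiableOn ℂ (a γ) D
  a_ne : ∀ γ, ∀ z ∈ D, a γ z ≠ 0
  a_mul : ∀ γ γ', ∀ z ∈ D, a (γ * γ') z = a γ (g γ' z) * a γ' z

lemma SAct.a_one {b : ℕ} {D : Set (Cn b)} {Γ : Type} [Group Γ] {g : Γ → Cn b → Cn b}
    {a : Γ → Cn b → ℂ} (hA : SAct D g a) : ∀ z ∈ D, a 1 z = 1 := by
  intro z hz
  have h1 := hA.a_mul 1 1 z hz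
  rw [mul_one, hA.act.one z hz] at h1
  have h2 := hA.a_ne 1 z hz
  have h3 : a 1 z * 1 = a 1 z * a 1 z := by rw [mul_one]; exact h1
  exact (mul_left_cancel₀ h2 h3).symm

variable {b : ℕ} {D : Set (Cn b)} {Γ : Type} [Group Γ] {g : Γ → Cn b → Cn b}
  {a : Γ → Cn b → ℂ}

/-- The linear part of a commutator. -/
lemma comm_a (hA : SAct D g a) {γ γ' : Γ} {x y : Cn b} (hx : x ∈ D) (hy : y ∈ D)
    (hyx : y = g (γ⁻¹ * γ'⁻¹) x) :
    a (γ * γ' * γ⁻¹ * γ'⁻¹) x =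
      (a γ (g γ' y) * (a γ y)⁻¹) * (a γ' y * (a γ' (g γ y))⁻¹) := by
  have hG := hA.act
  have e1 : g (γ' * γ) y = x := by
    rw [hyx, ← hG.mul _ _ x hx]
    have : γ' * γ * (γ⁻¹ * γ'⁻¹) = 1 := by group
    rw [this, hG.one x hx]
  have e2 := hA.a_mul (γ * γ' * γ⁻¹ * γ'⁻¹) (γ' * γ) y hy
  have e3 : γ * γ' * γ⁻¹ * γ'⁻¹ * (γ' * γ) = γ * γ' := by group
  rw [e3, e1, hA.a_mul γ γ' y hy, hA.a_mul γ' γ y hy] at e2
  have h1 := hA.a_ne γ y hy
  have h2 := hA.a_ne γ' _ (hG.maps γ y hy)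
  field_simp
  rw [e2]
  ring

section comm

variable {z₀ : Cn b} {r ρ d L : ℝ}

lemma fderiv_one_le (hG : GAct D g) (hρ : 0 < ρ) (hM : ball z₀ r ⊆ D) (hd : 0 ≤ d)
    (hdρ : 32 * d ≤ ρ) {γ : Γ} (h : Sz g z₀ r d γ) {y : Cn b} (hy : y ∈ ball z₀ (r - ρ / 8)) :
    ‖fderiv ℂ (g γ) y - 1‖ ≤ 16 * d / ρ ∧ ‖fderiv ℂ (g γ) y‖ ≤ 2 := by
  have hyr : y ∈ ball z₀ r := ball_subset_ball (by linarith) hy
  have hdiff : DifferentiableAt ℂ (g γ) y :=
    (hG.holo γ y (hM hyr)).differentiableAt (hG.isOpen.mem_nhds (hM hyr))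
  have h1 := fderiv_bd (by positivity : 0 < ρ / 8)
    (((hG.holo γ).mono hM).sub differentiableOn_id) (s := d)
    (fun u hu => (h u hu).1) hy
  have h2 : fderiv ℂ (g γ - id) y = fderiv ℂ (g γ) y - 1 := by
    rw [fderiv_sub hdiff differentiableAt_id, fderiv_id]
    rfl
  rw [h2] at h1
  have h3 : ‖fderiv ℂ (g γ) y - 1‖ ≤ 16 * d / ρ := by
    calc _ ≤ 2 * d / (ρ / 8) := h1
      _ = 16 * d / ρ := by field_simp; ring
  refine ⟨h3, ?_⟩
  have h4 : 16 * d / ρ ≤ 1 := by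
    rw [div_le_one hρ]; linarith
  calc ‖fderiv ℂ (g γ) y‖ = ‖(fderiv ℂ (g γ) y - 1) + 1‖ := by rw [sub_add_cancel]
    _ ≤ ‖fderiv ℂ (g γ) y - 1‖ + ‖(1 : Cn b →L[ℂ] Cn b)‖ := norm_add_le _ _
    _ ≤ 1 + 1 := add_le_add (h3.trans h4) ContinuousLinearMap.norm_id_le
    _ = 2 := by norm_num

/-- One term of the logarithmic derivative of a commutator. -/
lemma term_bd (hA : SAct D g a) (hρ : 0 < ρ) (hM : ball z₀ r ⊆ D) (hd : 0 ≤ d) (hL : 0 ≤ L)
    (hdρ : 32 * d ≤ ρ) {γ γ' : Γ} (h' : Sz g z₀ r d γ') (hl : Lz a z₀ r L γ)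
    {y : Cn b} (hy : y ∈ ball z₀ (r - ρ / 8)) (hy' : g γ' y ∈ ball z₀ (r - ρ / 8)) :
    ‖(ld (a γ) (g γ' y)).comp (fderiv ℂ (g γ') y) - ld (a γ) y‖ ≤ 48 * (L * d) / ρ := by
  have hG := hA.act
  have hsub : ball z₀ (r - ρ / 8) ⊆ ball z₀ r := ball_subset_ball (by linarith)
  have hne : ∀ x ∈ ball z₀ r, a γ x ≠ 0 := fun x hx => hA.a_ne γ x (hM hx)
  have hbd : ∀ x ∈ ball z₀ r, ‖ld (a γ) x‖ ≤ L := fun x hx => (ld_norm (hne x hx)).mpr (hl x hx)
  have hdiff : DifferentiableOn ℂ (ld (a γ)) (ball z₀ r) := by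
    have h1 : DifferentiableOn ℂ (fun x => (a γ x)⁻¹) (ball z₀ r) :=
      ((hA.a_holo γ).mono hM).inv hne
    exact h1.smul ((holo_fderiv hG.isOpen (hA.a_holo γ)).mono hM)
  have h1 := lip_bd (by positivity : 0 < ρ / 8) hdiff hbd hy' hy
  have hd1 : ‖g γ' y - y‖ ≤ d := (h' y (hsub hy)).1
  have h2 := fderiv_one_le hG hρ hM hd hdρ h' hy
  have e : (ld (a γ) (g γ' y)).comp (fderiv ℂ (g γ') y) - ld (a γ) y =
      (ld (a γ) (g γ' y) - ld (a γ) y).comp (fderiv ℂ (g γ') y) +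
      (ld (a γ) y).comp (fderiv ℂ (g γ') y - 1) := by
    ext v
    simp
  rw [e]
  have h3 : ‖ld (a γ) (g γ' y) - ld (a γ) y‖ ≤ 16 * (L * d) / ρ := by
    calc _ ≤ 2 * L / (ρ / 8) * ‖g γ' y - y‖ := h1
      _ ≤ 2 * L / (ρ / 8) * d := by gcongr
      _ = 16 * (L * d) / ρ := by field_simp; ring
  calc _ ≤ ‖(ld (a γ) (g γ' y) - ld (a γ) y).comp (fderiv ℂ (g γ') y)‖ +
        ‖(ld (a γ) y).comp (fderiv ℂ (g γ') y - 1)‖ := norm_add_le _ _
    _ ≤ ‖ld (a γ) (g γ' y) - ld (a γ) y‖ * ‖fderiv ℂ (g γ') y‖ +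
        ‖ld (a γ) y‖ * ‖fderiv ℂ (g γ') y - 1‖ :=
        add_le_add (ContinuousLinearMap.opNorm_comp_le _ _)
          (ContinuousLinearMap.opNorm_comp_le _ _)
    _ ≤ 16 * (L * d) / ρ * 2 + L * (16 * d / ρ) := by
        gcongr
        · exact h2.2
        · exact hbd y (hsub hy)
        · exact h2.1
    _ = 48 * (L * d) / ρ := by ring

/-- The logarithmic derivative of the linear part of a commutator. -/
lemma comm_ld (hA : SAct D g a) (hρ : 0 < ρ) (hM : ball z₀ r ⊆ D) (hd : 0 ≤ d) (hL : 0 ≤ L)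
    (hdρ : 32 * d ≤ ρ) {γ γ' : Γ} (h : Sz g z₀ r d γ) (h' : Sz g z₀ r d γ')
    (hl : Lz a z₀ r L γ) (hl' : Lz a z₀ r L γ') {x : Cn b} (hx : x ∈ ball z₀ (r - 3 * ρ / 8)) :
    ‖ld (a (γ * γ' * γ⁻¹ * γ'⁻¹)) x‖ ≤ 192 * (L * d) / ρ := by
  have hG := hA.act
  have hx4 : x ∈ ball z₀ (r - ρ / 4) := ball_subset_ball (by linarith) hx
  have hsub4 : ball z₀ (r - ρ / 4) ⊆ D := (ball_subset_ball (by linarith)).trans hM
  obtain ⟨hy, -, hy', hy'', -, -⟩ := comm_pt hG hρ hM hd hdρ h h' hx4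
  set y := g (γ⁻¹ * γ'⁻¹) x with hydef
  have hsub : ball z₀ (r - ρ / 8) ⊆ D := (ball_subset_ball (by linarith)).trans hM
  have hat : ∀ {f : Cn b → ℂ}, DifferentiableOn ℂ f D → ∀ w ∈ D, DifferentiableAt ℂ f w :=
    fun hf w hw => (hf w hw).differentiableAt (hG.isOpen.mem_nhds hw)
  have hgat : ∀ γ : Γ, ∀ w ∈ D, DifferentiableAt ℂ (g γ) w :=
    fun γ w hw => (hG.holo γ w hw).differentiableAt (hG.isOpen.mem_nhds hw)
  have hyD := hsub hy
  have hy'D := hsub hy'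
  have hy''D := hsub hy''
  -- the formula near `x`
  have e1 : a (γ * γ' * γ⁻¹ * γ'⁻¹) =ᶠ[𝓝 x] fun w =>
      (fun y => (a γ (g γ' y) * (a γ y)⁻¹) * (a γ' y * (a γ' (g γ y))⁻¹))
        (g (γ⁻¹ * γ'⁻¹) w) := by
    filter_upwards [isOpen_ball.mem_nhds hx4] with w hw
    exact comm_a hA (hsub4 hw) (hG.maps _ _ (hsub4 hw)) rfl
  -- differentiability
  have d1 : DifferentiableAt ℂ (fun y => a γ (g γ' y)) y :=
    (hat (hA.a_holo γ) _ hy'D).comp y (hgat γ' y hyD)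
  have d2 : DifferentiableAt ℂ (a γ) y := hat (hA.a_holo γ) y hyD
  have d3 : DifferentiableAt ℂ (a γ') y := hat (hA.a_holo γ') y hyD
  have d4 : DifferentiableAt ℂ (fun y => a γ' (g γ y)) y :=
    (hat (hA.a_holo γ') _ hy''D).comp y (hgat γ y hyD)
  have n1 : a γ (g γ' y) ≠ 0 := hA.a_ne _ _ hy'D
  have n2 : a γ y ≠ 0 := hA.a_ne _ _ hyD
  have n3 : a γ' y ≠ 0 := hA.a_ne _ _ hyD
  have n4 : a γ' (g γ y) ≠ 0 := hA.a_ne _ _ hy''D
  have e2 : ld (fun y => (a γ (g γ' y) * (a γ y)⁻¹) * (a γ' y * (a γ' (g γ y))⁻¹)) y =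
      ((ld (a γ) (g γ' y)).comp (fderiv ℂ (g γ') y) - ld (a γ) y) -
      ((ld (a γ') (g γ y)).comp (fderiv ℂ (g γ) y) - ld (a γ') y) := by
    have i2 : DifferentiableAt ℂ (fun y => (a γ y)⁻¹) y := d2.inv n2
    have i4 : DifferentiableAt ℂ (fun y => (a γ' (g γ y))⁻¹) y := d4.inv n4
    have m12 : DifferentiableAt ℂ (fun y => a γ (g γ' y) * (a γ y)⁻¹) y := d1.mul i2
    have m34 : DifferentiableAt ℂ (fun y => a γ' y * (a γ' (g γ y))⁻¹) y := d3.mul i4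
    rw [ld_mul m12 m34 (mul_ne_zero n1 (inv_ne_zero n2))
      (mul_ne_zero n3 (inv_ne_zero n4)), ld_mul d1 i2 n1 (inv_ne_zero n2),
      ld_mul d3 i4 n3 (inv_ne_zero n4), ld_inv d2 n2, ld_inv d4 n4,
      ld_comp (hat (hA.a_holo γ) _ hy'D) (hgat γ' y hyD),
      ld_comp (hat (hA.a_holo γ') _ hy''D) (hgat γ y hyD)]
    abel
  have e3 : ld (a (γ * γ' * γ⁻¹ * γ'⁻¹)) x =
      (ld (fun y => (a γ (g γ' y) * (a γ y)⁻¹) * (a γ' y * (a γ' (g γ y))⁻¹)) y).comp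
        (fderiv ℂ (g (γ⁻¹ * γ'⁻¹)) x) := by
    rw [ld_congr e1]
    exact ld_comp ((d1.mul (d2.inv n2)).mul (d3.mul (d4.inv n4)))
      (hgat _ x (hsub4 hx4))
  -- the derivative of `φ`
  have hφ : ‖fderiv ℂ (g (γ⁻¹ * γ'⁻¹)) x‖ ≤ 2 := by
    have h1 := fderiv_bd (z := z₀) (r := r - ρ / 4) (s := 2 * d) (by positivity : 0 < ρ / 8)
      (((hG.holo (γ⁻¹ * γ'⁻¹)).mono hsub4).sub differentiableOn_id)
      (fun u hu => (comm_pt hG hρ hM hd hdρ h h' hu).2.1)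
      (w := x) (ball_subset_ball (by linarith) hx)
    have h2 : fderiv ℂ (g (γ⁻¹ * γ'⁻¹) - id) x = fderiv ℂ (g (γ⁻¹ * γ'⁻¹)) x - 1 := by
      rw [fderiv_sub (hgat _ x (hsub4 hx4)) differentiableAt_id, fderiv_id]
      rfl
    rw [h2] at h1
    have h3 : 2 * (2 * d) / (ρ / 8) ≤ 1 := by
      rw [div_le_one (by positivity)]; linarith
    calc ‖fderiv ℂ (g (γ⁻¹ * γ'⁻¹)) x‖ = ‖(fderiv ℂ (g (γ⁻¹ * γ'⁻¹)) x - 1) + 1‖ := by
          rw [sub_add_cancel]
      _ ≤ ‖fderiv ℂ (g (γ⁻¹ * γ'⁻¹)) x - 1‖ + ‖(1 : Cn b →L[ℂ] Cn b)‖ := norm_add_le _ _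
      _ ≤ 1 + 1 := add_le_add (h1.trans h3) ContinuousLinearMap.norm_id_le
      _ = 2 := by norm_num
  rw [e3, e2]
  have t1 := term_bd hA hρ hM hd hL hdρ h' hl hy hy'
  have t2 := term_bd hA hρ hM hd hL hdρ h hl' hy hy''
  have h0 : 0 ≤ 48 * (L * d) / ρ := by positivity
  calc _ ≤ ‖((ld (a γ) (g γ' y)).comp (fderiv ℂ (g γ') y) - ld (a γ) y) -
      ((ld (a γ') (g γ y)).comp (fderiv ℂ (g γ) y) - ld (a γ') y)‖ *
        ‖fderiv ℂ (g (γ⁻¹ * γ'⁻¹)) x‖ := ContinuousLinearMap.opNorm_comp_le _ _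
    _ ≤ (48 * (L * d) / ρ + 48 * (L * d) / ρ) * 2 := by
        gcongr
        exact (norm_sub_le _ _).trans (add_le_add t1 t2)
    _ = 192 * (L * d) / ρ := by ring

/-- The size of the linear part of a commutator. -/
lemma comm_size (hA : SAct D g a) (hρ : 0 < ρ) (hM : ball z₀ r ⊆ D) (hd : 0 ≤ d) (hL : 0 ≤ L)
    (hdρ : 32 * d ≤ ρ) {γ γ' : Γ} (h : Sz g z₀ r d γ) (h' : Sz g z₀ r d γ')
    (hl : Lz a z₀ r L γ) (hl' : Lz a z₀ r L γ') (hLd : L * d ≤ 1 / 2) {x : Cn b}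
    (hx : x ∈ ball z₀ (r - ρ / 4)) : ‖a (γ * γ' * γ⁻¹ * γ'⁻¹) x - 1‖ ≤ 6 * (L * d) := by
  have hG := hA.act
  have hsub4 : ball z₀ (r - ρ / 4) ⊆ D := (ball_subset_ball (by linarith)).trans hM
  obtain ⟨hy, -, hy', hy'', -, -⟩ := comm_pt hG hρ hM hd hdρ h h' hx
  set y := g (γ⁻¹ * γ'⁻¹) x with hydef
  have hsub : ball z₀ (r - ρ / 8) ⊆ ball z₀ r := ball_subset_ball (by linarith)
  rw [comm_a hA (hsub4 hx) (hM (hsub hy)) hydef]
  have r1 := ratio_bd hL ((hA.a_holo γ).mono hM) (fun x hx => hA.a_ne γ x (hM hx)) hl (hsub hy)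
    (hsub hy') (h' y (hsub hy)).1 hLd
  have r2 := ratio_bd hL ((hA.a_holo γ').mono hM) (fun x hx => hA.a_ne γ' x (hM hx)) hl'
    (hsub hy'') (hsub hy) (d := d) (by rw [norm_sub_rev]; exact (h y (hsub hy)).1) hLd
  rw [div_eq_mul_inv] at r1 r2
  set p := a γ (g γ' y) * (a γ y)⁻¹
  set q := a γ' y * (a γ' (g γ y))⁻¹
  have e : p * q - 1 = (p - 1) * (q - 1) + (p - 1) + (q - 1) := by ring
  rw [e]
  have h0 : 0 ≤ L * d := by positivity
  calc _ ≤ ‖p - 1‖ * ‖q - 1‖ + ‖p - 1‖ + ‖q - 1‖ := by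
        refine (norm_add_le _ _).trans (add_le_add ((norm_add_le _ _).trans ?_) le_rfl)
        rw [norm_mul]
    _ ≤ (2 * (L * d)) * 1 + 2 * (L * d) + 2 * (L * d) := by
        gcongr
        linarith
    _ = 6 * (L * d) := by ring

/-- Products. -/
lemma prod_size (hA : SAct D g a) {R e s : ℝ} (hM : ball z₀ R ⊆ D) (he : 0 ≤ e)
    (hs : 0 ≤ s) : ∀ L : List Γ, (∀ c ∈ L, ∀ x ∈ ball z₀ R, ‖g c x - x‖ ≤ e ∧ ‖a c x - 1‖ ≤ s) →
      ∀ x ∈ ball z₀ (R - L.length * e), ‖a L.prod x - 1‖ ≤ (1 + s) ^ L.length - 1 := by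
  have hG := hA.act
  intro L
  induction L with
  | nil =>
    intro _ x hx
    have hx' : x ∈ D := hM (ball_subset_ball (by simp) hx)
    simp [hA.a_one x hx']
  | cons c L ih =>
    intro h x hx
    have hL : 0 ≤ (L.length : ℝ) * e := by positivity
    have hlen : (((c :: L).length : ℕ) : ℝ) * e = L.length * e + e := by
      simp; ring
    rw [hlen] at hx
    have hx' : x ∈ D := hM (ball_subset_ball (by linarith) hx)
    have hxL : x ∈ ball z₀ (R - L.length * e) := ball_subset_ball (by linarith) hx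
    have h1 := prod_disp hG hM he L (fun c hc x hx => (h c (List.mem_cons_of_mem _ hc) x hx).1) x
      hxL
    have h2 : g L.prod x ∈ ball z₀ R := ball_move' hx h1 (by linarith)
    have h3 := (h c (List.mem_cons_self ..) _ h2).2
    have h4 := ih (fun c hc => h c (List.mem_cons_of_mem _ hc)) x hxL
    rw [List.prod_cons, hA.a_mul _ _ x hx', List.length_cons, pow_succ]
    set p := a c (g L.prod x)
    set q := a L.prod x
    have e' : p * q - 1 = (p - 1) * (q - 1) + (p - 1) + (q - 1) := by ring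
    rw [e']
    have h5 : 0 ≤ (1 + s) ^ L.length - 1 := (norm_nonneg _).trans h4
    calc _ ≤ ‖p - 1‖ * ‖q - 1‖ + ‖p - 1‖ + ‖q - 1‖ := by
          refine (norm_add_le _ _).trans (add_le_add ((norm_add_le _ _).trans ?_) le_rfl)
          rw [norm_mul]
      _ ≤ s * ((1 + s) ^ L.length - 1) + s + ((1 + s) ^ L.length - 1) := by gcongr
      _ = _ := by ring

lemma prod_ld (hA : SAct D g a) {R e l ρ : ℝ} {N : ℕ} (hM : ball z₀ R ⊆ D) (he : 0 ≤ e)
    (hl : 0 ≤ l) (hρ : 0 < ρ) (hNe : 16 * (N * e) ≤ ρ) :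
    ∀ L : List Γ, L.length ≤ N →
      (∀ c ∈ L, ∀ x ∈ ball z₀ R, ‖g c x - x‖ ≤ e ∧ ‖ld (a c) x‖ ≤ l) →
      ∀ x ∈ ball z₀ (R - N * e - ρ / 8), ‖ld (a L.prod) x‖ ≤ L.length * (2 * l) := by
  have hG := hA.act
  have hNe0 : 0 ≤ (N : ℝ) * e := by positivity
  have hat : ∀ {f : Cn b → ℂ}, DifferentiableOn ℂ f D → ∀ w ∈ D, DifferentiableAt ℂ f w :=
    fun hf w hw => (hf w hw).differentiableAt (hG.isOpen.mem_nhds hw)
  have hgat : ∀ γ : Γ, ∀ w ∈ D, DifferentiableAt ℂ (g γ) w :=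
    fun γ w hw => (hG.holo γ w hw).differentiableAt (hG.isOpen.mem_nhds hw)
  intro L
  induction L with
  | nil =>
    intro _ _ x hx
    have hx' : x ∈ D := hM (ball_subset_ball (by linarith) hx)
    have : a 1 =ᶠ[𝓝 x] fun _ => (1 : ℂ) := by
      filter_upwards [hG.isOpen.mem_nhds hx'] with y hy
      exact hA.a_one y hy
    rw [List.prod_nil, ld_congr this]
    unfold ld
    simp
  | cons c L ih =>
    intro hN h x hx
    have hx' : x ∈ D := hM (ball_subset_ball (by linarith) hx)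
    rw [List.length_cons] at hN
    have hLN : (L.length : ℝ) * e + e ≤ N * e := by
      have : ((L.length : ℝ) + 1) ≤ N := by exact_mod_cast hN
      nlinarith
    have hL0 : 0 ≤ (L.length : ℝ) * e := by positivity
    have hdisp : ∀ u ∈ ball z₀ (R - N * e), ‖g L.prod u - u‖ ≤ L.length * e := fun u hu =>
      prod_disp hG hM he L (fun c hc x hx => (h c (List.mem_cons_of_mem _ hc) x hx).1) u
        (ball_subset_ball (by linarith) hu)
    have hxN : x ∈ ball z₀ (R - N * e) := ball_subset_ball (by linarith) hx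
    have h2 : g L.prod x ∈ ball z₀ R := ball_move' hxN (hdisp x hxN) (by linarith)
    have h3 := (h c (List.mem_cons_self ..) _ h2).2
    have h4 := ih (by omega) (fun c hc => h c (List.mem_cons_of_mem _ hc)) x hx
    have hφ : ‖fderiv ℂ (g L.prod) x‖ ≤ 2 := by
      have h5 := fderiv_bd (z := z₀) (r := R - N * e) (s := L.length * e)
        (by positivity : 0 < ρ / 8)
        (((hG.holo L.prod).mono ((ball_subset_ball (by linarith)).trans hM)).sub
          differentiableOn_id) hdisp (w := x) hx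
      have h6 : fderiv ℂ (g L.prod - id) x = fderiv ℂ (g L.prod) x - 1 := by
        rw [fderiv_sub (hgat _ x hx') differentiableAt_id, fderiv_id]
        rfl
      rw [h6] at h5
      have h7 : 2 * (L.length * e) / (ρ / 8) ≤ 1 := by
        rw [div_le_one (by positivity)]; linarith
      calc ‖fderiv ℂ (g L.prod) x‖ = ‖(fderiv ℂ (g L.prod) x - 1) + 1‖ := by
            rw [sub_add_cancel]
        _ ≤ ‖fderiv ℂ (g L.prod) x - 1‖ + ‖(1 : Cn b →L[ℂ] Cn b)‖ := norm_add_le _ _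
        _ ≤ 1 + 1 := add_le_add (h5.trans h7) ContinuousLinearMap.norm_id_le
        _ = 2 := by norm_num
    have e1 : a (c * L.prod) =ᶠ[𝓝 x] fun w => a c (g L.prod w) * a L.prod w := by
      filter_upwards [hG.isOpen.mem_nhds hx'] with w hw
      exact hA.a_mul c L.prod w hw
    have m1 : DifferentiableAt ℂ (fun w => a c (g L.prod w)) x :=
      (hat (hA.a_holo c) _ (hM h2)).comp x (hgat _ x hx')
    have m2 : DifferentiableAt ℂ (fun w => a L.prod w) x := hat (hA.a_holo _) x hx'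
    rw [List.prod_cons, ld_congr e1, ld_mul m1 m2 (hA.a_ne _ _ (hM h2)) (hA.a_ne _ _ hx'),
      ld_comp (hat (hA.a_holo c) _ (hM h2)) (hgat _ x hx')]
    calc _ ≤ ‖(ld (a c) (g L.prod x)).comp (fderiv ℂ (g L.prod) x)‖ + ‖ld (a L.prod) x‖ :=
          norm_add_le _ _
      _ ≤ l * 2 + L.length * (2 * l) := by
          refine add_le_add ((ContinuousLinearMap.opNorm_comp_le _ _).trans ?_) h4
          gcongr
      _ = ((c :: L).length : ℕ) * (2 * l) := by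
          rw [List.length_cons]; push_cast; ring

end comm

theorem stepd : S_STEPD := by
  intro N
  have hN : (0 : ℝ) ≤ N := Nat.cast_nonneg N
  refine ⟨1024 * (N + 1), by nlinarith, ?_⟩
  intro b D Γ _ g a hG0 hah han ham z₀ r ρ d L hρ hρr hM hd hL hCd p γ hγ hLγ δ hδ
  have hA : SAct D g a := ⟨hG0, hah, han, ham⟩
  have hG := hA.act
  have hd32 : 32 * d ≤ ρ := by nlinarith
  set e : ℝ := 32 * d ^ 2 / ρ with hedef
  have he : 0 ≤ e := by positivity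
  have hNe : 16 * (N * e) ≤ ρ := by
    have h0 : 16 * (N * e) = 512 * N * d ^ 2 / ρ := by rw [hedef]; ring
    rw [h0, div_le_iff₀ hρ]
    have h1 : 1024 * (N + 1) * d * (32 * d) ≤ ρ * ρ := mul_le_mul hCd hd32 (by positivity) hρ.le
    nlinarith [mul_nonneg hN (sq_nonneg d), sq_nonneg d]
  have hNe0 : 0 ≤ (N : ℝ) * e := by positivity
  obtain ⟨l, hl, rfl, hc⟩ := words_list hδ
  have hLN : (l.length : ℝ) ≤ N := by exact_mod_cast hl
  constructor
  · intro x hx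
    have hx' : x ∈ D := hM (ball_subset_ball (by linarith) hx)
    rw [← ld_norm (hA.a_ne _ _ hx')]
    have hl0 : 0 ≤ 192 * (L * d) / ρ := by positivity
    have := prod_ld hA (z₀ := z₀) (R := r - 3 * ρ / 8) (e := e) (l := 192 * (L * d) / ρ)
      (N := N) (ρ := ρ) ((ball_subset_ball (by linarith)).trans hM) he hl0 hρ hNe l hl (by
        intro c hcl y hy
        obtain ⟨i, j, rfl⟩ := hc c hcl
        exact ⟨comm_disp hG hρ hM hd hd32 (hγ i) (hγ j) (ball_subset_ball (by linarith) hy),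
          comm_ld hA hρ hM hd hL hd32 (hγ i) (hγ j) (hLγ i) (hLγ j) hy⟩) x
        (ball_subset_ball (by linarith) hx)
    calc _ ≤ l.length * (2 * (192 * (L * d) / ρ)) := this
      _ ≤ N * (2 * (192 * (L * d) / ρ)) := by gcongr
      _ = 384 * N / ρ * d * L := by ring
      _ ≤ 1024 * (N + 1) / ρ * d * L := by
          gcongr
          · norm_num
          · linarith
  · intro hCL x hx
    have hLd : 0 ≤ L * d := by positivity
    have h6 : 6 * (L * d) ≤ 1 := by nlinarith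
    have hN6 : N * (6 * (L * d)) ≤ 1 := by nlinarith [mul_nonneg hN hLd]
    have := prod_size hA (z₀ := z₀) (R := r - ρ / 4) (e := e) (s := 6 * (L * d))
      ((ball_subset_ball (by linarith)).trans hM) he (by positivity) l (by
        intro c hcl y hy
        obtain ⟨i, j, rfl⟩ := hc c hcl
        exact ⟨comm_disp hG hρ hM hd hd32 (hγ i) (hγ j) hy,
          comm_size hA hρ hM hd hL hd32 (hγ i) (hγ j) (hLγ i) (hLγ j) (by nlinarith) hy⟩) x (by
        refine ball_subset_ball ?_ hx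
        have : (l.length : ℝ) * e ≤ N * e := by gcongr
        linarith)
    have h7 : (1 + 6 * (L * d)) ^ l.length ≤ Real.exp (N * (6 * (L * d))) := by
      calc (1 + 6 * (L * d)) ^ l.length ≤ (Real.exp (6 * (L * d))) ^ l.length := by
            gcongr
            rw [add_comm]
            exact Real.add_one_le_exp _
        _ = Real.exp (l.length * (6 * (L * d))) := by rw [← Real.exp_nat_mul]
        _ ≤ _ := by
            apply Real.exp_le_exp.mpr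
            gcongr
    have h8 : Real.exp (N * (6 * (L * d))) - 1 ≤ 2 * (N * (6 * (L * d))) := by
      have h9 := Real.abs_exp_sub_one_le (x := N * (6 * (L * d)))
        (by rw [abs_of_nonneg (by positivity)]; exact hN6)
      rw [abs_of_nonneg (by positivity : (0:ℝ) ≤ N * (6 * (L * d)))] at h9
      exact (le_abs_self _).trans h9
    calc _ ≤ (1 + 6 * (L * d)) ^ l.length - 1 := this
      _ ≤ Real.exp (N * (6 * (L * d))) - 1 := by linarith
      _ ≤ 2 * (N * (6 * (L * d))) := h8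
      _ ≤ 1024 * (N + 1) * d * L := by nlinarith [mul_nonneg hN hLd]

end Pool.Agent.Helper87.LinK
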