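import Pool.Agent.Helper45.LinK.GoalsK

/-!
# Packet TGAK: the action on the tube
-/

open Complex Metric Set Filter Topology

namespace Pool.Agent.Helper87.LinK.Tga

open Pool.Agent.Helper95.Lin Pool.Agent.Helper16.Abund Pool.Agent.Helper45.LinK

variable {b k : ℕ} {D : Set (Cn b)} {Γ : Type} {g : Γ → Cn b → Cn b} {A : Γ → Cn b → CE k}
  {β : Γ → Cn b → Cn k}

/-- The point `(z, w)`. -/
def mk (p : Cn b × Cn k) : Cn (b + k) := Fin.append p.1 p.2

theorem base_mk (p : Cn b × Cn k) : base (mk p) = p.1 := by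
  funext i
  simp [base, mk]

theorem fib_mk (p : Cn b × Cn k) : fib (mk p) = p.2 := by
  funext i
  simp [fib, mk]

theorem ext_bl {v v' : Cn (b + k)} (h : base v = base v') (h' : fib v = fib v') : v = v' := by
  funext i
  refine Fin.addCases (fun j => ?_) (fun j => ?_) i
  · exact congrFun h j
  · exact congrFun h' j

theorem mk_base (v : Cn (b + k)) : mk (base v, fib v) = v :=
  ext_bl (base_mk _) (fib_mk _)

theorem continuous_mk : Continuous (mk : Cn b × Cn k → Cn (b + k)) := by
  refine continuous_pi fun i => ?_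
  refine Fin.addCases (fun j => ?_) (fun j => ?_) i
  · simp only [mk, Fin.append_left]
    fun_prop
  · simp only [mk, Fin.append_right]
    fun_prop

theorem tt_eq (γ : Γ) (v : Cn (b + k)) : TtK g A β γ v =
    mk (g γ (base v), A γ (base v) (fib v) + β γ (base v)) := rfl

theorem base_tt (γ : Γ) (v : Cn (b + k)) : base (TtK g A β γ v) = g γ (base v) := by
  rw [tt_eq, base_mk]

theorem fib_tt (γ : Γ) (v : Cn (b + k)) : fib (TtK g A β γ v) =
    A γ (base v) (fib v) + β γ (base v) := by
  rw [tt_eq, fib_mk]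

theorem tubeK_eq : tubeK D k = mk '' (D ×ˢ univ) := by
  ext v
  constructor
  · intro hv
    exact ⟨(base v, fib v), ⟨hv, mem_univ _⟩, mk_base v⟩
  · rintro ⟨p, hp, rfl⟩
    have h := hp.1
    unfold tubeK
    rw [mem_ofPred_eq, base_mk]
    exact h

theorem differentiable_base : Differentiable ℂ (base : (Fin (b + k) → ℂ) → (Fin b → ℂ)) := by
  unfold base
  fun_prop

theorem differentiable_fib : Differentiable ℂ (fib : (Fin (b + k) → ℂ) → (Fin k → ℂ)) := by
  unfold fib
  fun_prop

theorem norm_fib_le (v : Cn (b + k)) : ‖fib v‖ ≤ ‖v‖ := by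
  rw [pi_norm_le_iff_of_nonneg (norm_nonneg _)]
  intro j
  exact norm_le_pi_norm v _

/-- `TtK` is an action on the tube. -/
theorem tgak : S_TGAK := by
  intro b k D Γ _ g A β hL
  have hD := hL.base.dom
  refine ⟨fun t => ⟨?_, ?_, ?_, ?_, ?_⟩, ?_, ?_, ?_⟩
  · exact hD.isOpen.preimage continuous_base
  · intro γ
    have hb : MapsTo (base : Cn (b + k) → Cn b) (tubeK D k) D := fun v hv => hv
    rw [differentiableOn_pi]
    intro i
    refine Fin.addCases (fun j => ?_) (fun j => ?_) i
    · have h1 := (differentiableOn_pi.mp (hL.base.act.holo γ) j).comp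
        differentiable_base.differentiableOn hb
      refine h1.congr fun v _ => ?_
      simp [TtK]
    · have h1 := (hL.a_holo γ).comp (differentiable_base (k := k)).differentiableOn hb
      have h2 := (hL.b_holo γ).comp (differentiable_base (k := k)).differentiableOn hb
      have h3 : Differentiable ℂ fun v : Cn (b + k) => fib v := differentiable_fib
      have h4 := (h1.clm_apply h3.differentiableOn).add (h2.const_smul (t : ℂ))
      have h5 := (differentiableOn_pi.mp h4) j
      refine h5.congr fun v _ => ?_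
      simp [TtK]
  · intro γ v hv
    have : base (TtK g A (fun γ z => (t : ℂ) • β γ z) γ v) ∈ D := by
      rw [base_tt]
      exact hL.base.act.maps γ _ hv
    exact this
  · intro v hv
    refine ext_bl ?_ ?_
    · rw [base_tt]
      exact hL.base.act.one _ hv
    · rw [fib_tt, hL.a_one _ hv, hL.b_one _ hv]
      simp
  · intro γ γ' v hv
    refine ext_bl ?_ ?_
    · rw [base_tt, base_tt, base_tt]
      exact hL.base.act.mul _ _ _ hv
    · rw [fib_tt, fib_tt, fib_tt, base_tt, hL.a_mul _ _ _ hv, hL.b_mul _ _ _ hv]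
      rw [map_add, map_smul, smul_add, mul_apply_eq_comp]
      abel
  · rw [tubeK_eq]
    exact (hD.conn.prod isConnected_univ).image _ continuous_mk.continuousOn
  · intro K hK hKc
    obtain ⟨R, hR⟩ := hKc.isBounded.exists_norm_le
    have h1 : base '' K ⊆ D := by
      rintro _ ⟨v, hv, rfl⟩
      exact hK hv
    refine (hL.proper (base '' K) h1 (hKc.image continuous_base) R).subset ?_
    rintro γ ⟨v, hv, hv'⟩
    refine ⟨base v, ⟨v, hv, rfl⟩, fib v, (norm_fib_le v).trans (hR v hv), ?_, ?_⟩
    · exact ⟨_, hv', base_tt γ v⟩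
    · rw [← fib_tt]
      exact (norm_fib_le _).trans (hR _ hv')
  · obtain ⟨K, hK, hKc, R, hR⟩ := hL.coc
    refine ⟨mk '' (K ×ˢ closedBall 0 R), ?_, ?_, ?_⟩
    · rw [tubeK_eq]
      exact image_mono (prod_mono hK (subset_univ _))
    · exact (hKc.prod (isCompact_closedBall 0 R)).image continuous_mk
    · intro v hv
      obtain ⟨γ, h1, h2⟩ := hR (base v) hv (fib v)
      refine ⟨γ, ⟨(g γ (base v), A γ (base v) (fib v) + β γ (base v)), ⟨h1, ?_⟩, rfl⟩⟩
      rw [mem_closedBall_zero_iff]
      exact h2

end Pool.Agent.Helper87.LinK.Tga
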