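import Pool.Agent.Helper45.LinK.GoalsN
import Pool.Agent.Helper19.Lin.KACT

/-! # Packet TUBM: fibre preserving biholomorphic maps as maps of the manifold `D × ℂᵏ` -/

open Complex Metric Set Filter Topology MeasureTheory
open scoped ContDiff ComplexConjugate ComplexOrder Manifold

namespace Pool.Agent.Helper87.LinK.Tubm

open Pool.Agent.Helper16.Abund Pool.Agent.Helper92.Orb Pool.Agent.Helper95.Lin
  Pool.Agent.Helper45.LinK
open Pool.Agent.Helper10.Abund (hasMFDerivAt_val mdifferentiable_val)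
open Pool.Agent.Helper19.Lin (mfderiv_of_val)

/-- A holomorphic map of an open subset of `ℂⁿ` to itself, as a map of the manifold. -/
theorem mdiff_of {n : ℕ} (V : TopologicalSpace.Opens (Fin n → ℂ)) {Ψ : (Fin n → ℂ) → (Fin n → ℂ)}
    (hΨ : DifferentiableOn ℂ Ψ (V : Set (Fin n → ℂ))) (T : V → V)
    (hT : ∀ y : V, (T y : Fin n → ℂ) = Ψ y.1) :
    MDifferentiable 𝓘(ℂ, Fin n → ℂ) 𝓘(ℂ, Fin n → ℂ) T ∧
    ∀ y : V, (mfderiv 𝓘(ℂ, Fin n → ℂ) 𝓘(ℂ, Fin n → ℂ) T y :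
      (Fin n → ℂ) →L[ℂ] (Fin n → ℂ)) = fderiv ℂ Ψ y.1 := by
  have hM : IsOpen (V : Set (Fin n → ℂ)) := V.isOpen
  have hcomp : (fun z => (T z : Fin n → ℂ)) = Ψ ∘ (Subtype.val : V → (Fin n → ℂ)) := by
    funext z; exact hT z
  have hTd : MDifferentiable 𝓘(ℂ, Fin n → ℂ) 𝓘(ℂ, Fin n → ℂ) T := by
    intro y
    have hcT : ContMDiffAt 𝓘(ℂ, Fin n → ℂ) 𝓘(ℂ, Fin n → ℂ) ∞ Ψ y.1 :=
      ((holo_contDiffOn hM hΨ).contDiffAt (hM.mem_nhds y.2)).contMDiffAt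
    have hval : ContMDiffAt 𝓘(ℂ, Fin n → ℂ) 𝓘(ℂ, Fin n → ℂ) ∞
        (Subtype.val : V → (Fin n → ℂ)) y := contMDiff_subtype_val.contMDiffAt
    have h1 : ContMDiffAt 𝓘(ℂ, Fin n → ℂ) 𝓘(ℂ, Fin n → ℂ) ∞
        (fun z => (T z : Fin n → ℂ)) y := by
      rw [hcomp]
      exact hcT.comp y hval
    have hTc : ContMDiffAt 𝓘(ℂ, Fin n → ℂ) 𝓘(ℂ, Fin n → ℂ) ∞ T y :=
      (ContMDiffAt.subtypeVal_comp_iff V T y).mp h1
    exact hTc.mdifferentiableAt (by simp)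
  refine ⟨hTd, fun y => ?_⟩
  have hdT : DifferentiableAt ℂ Ψ y.1 := hΨ.differentiableAt (hM.mem_nhds y.2)
  have h1 := mfderiv_of_val V (hTd y)
  rw [hcomp] at h1
  have h3 := mfderiv_comp y (I' := 𝓘(ℂ, Fin n → ℂ)) (g := Ψ)
    (f := (Subtype.val : V → (Fin n → ℂ)))
    (mdifferentiableAt_iff_differentiableAt.mpr hdT) ((mdifferentiable_val V) y)
  have h4 : mfderiv 𝓘(ℂ, Fin n → ℂ) 𝓘(ℂ, Fin n → ℂ)
    (Subtype.val : V → (Fin n → ℂ)) y =
    ContinuousLinearMap.id ℂ (Fin n → ℂ) := (hasMFDerivAt_val V y).mfderiv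
  rw [h4, mfderiv_eq_fderiv] at h3
  rw [← h1]
  exact h3

theorem tubm : S_TUBM := by
  intro b k D hD Ψ Ψ' h
  have hV : ((tube D hD k : TopologicalSpace.Opens (Fin (b + k) → ℂ)) :
    Set (Fin (b + k) → ℂ)) = tubeK D k := rfl
  have m1 : ∀ v ∈ tubeK D k, Ψ v ∈ tubeK D k := by
    intro v hv
    change base (Ψ v) ∈ D
    rw [h.bas v hv]
    exact hv
  have m2 : ∀ v ∈ tubeK D k, Ψ' v ∈ tubeK D k := by
    intro v hv
    change base (Ψ' v) ∈ D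
    rw [h.bas' v hv]
    exact hv
  let T : tube D hD k → tube D hD k := fun y => ⟨Ψ y.1, m1 y.1 y.2⟩
  let T' : tube D hD k → tube D hD k := fun y => ⟨Ψ' y.1, m2 y.1 y.2⟩
  obtain ⟨a1, a2⟩ := mdiff_of (tube D hD k) (Ψ := Ψ) h.holo T (fun y => rfl)
  obtain ⟨b1, b2⟩ := mdiff_of (tube D hD k) (Ψ := Ψ') h.holo' T' (fun y => rfl)
  let e : tube D hD k ≃ₜ tube D hD k :=
    { toFun := T
      invFun := T'
      left_inv := fun y => Subtype.ext (h.left y.1 y.2)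
      right_inv := fun y => Subtype.ext (h.right y.1 y.2)
      continuous_toFun := a1.continuous
      continuous_invFun := b1.continuous }
  refine ⟨e, fun y => rfl, fun y => rfl, a1, b1, fun y ξ => ?_⟩
  have := a2 y
  exact congrArg (fun L : (Fin (b + k) → ℂ) →L[ℂ] (Fin (b + k) → ℂ) => L ξ) this

end Pool.Agent.Helper87.LinK.Tubm
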